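import Pool.Agent.Helper98.HQ.Spec

set_option autoImplicit false

open MeasureTheory Filter Topology
open scoped ENNReal NNReal

namespace Pool.Agent.Helper36.HQ.BR

open Pool.Agent.Helper98.HQ

/-- Iterated operators with multipliers `c 0, c 1, …`. -/
noncomputable def ito {k : ℕ} (ν : Measure (ℝ × ℝ)) (h : (Fin k → ℝ) → ℝ≥0∞) :
    ℕ → (ℕ → ℝ) → (Fin k → ℝ) → ℝ≥0∞
  | 0, _ => h
  | n + 1, c => op ν (c 0) (ito ν h n (fun j => c (j + 1)))

lemma pth_cns {k : ℕ} (u : ℝ × ℝ) (o : ℕ → ℝ × ℝ) (n : ℕ) : ∀ (c : ℕ → ℝ) (w : Fin k → ℝ),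
    pth c w (cns u o) (n + 1) = pth (fun j => c (j + 1)) (stp (c 0) w u) o n := by
  induction n with
  | zero => intro c w; rfl
  | succ n ih =>
    intro c w
    have h1 : pth c w (cns u o) (n + 1 + 1) = stp (c (n + 1)) (pth c w (cns u o) (n + 1))
        (cns u o (n + 1)) := rfl
    rw [h1, ih c w]
    rfl

lemma meas_cns : Measurable (fun z : (ℝ × ℝ) × (ℕ → ℝ × ℝ) => cns z.1 z.2) := by
  refine measurable_pi_lambda _ (fun n => ?_)
  cases n with
  | zero => exact measurable_fst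
  | succ n => exact (measurable_pi_apply n).comp measurable_snd

lemma meas_stp {k : ℕ} (hKWM : S_KWM) (c : ℝ) (w : Fin k → ℝ) :
    Measurable (fun u : ℝ × ℝ => stp c w u) := by
  have h1 : Measurable (fun u : ℝ × ℝ => ((w, u) : (Fin k → ℝ) × ℝ × ℝ)) := by
    exact measurable_const.prodMk measurable_id
  exact (hKWM.2.1 k c).comp h1

lemma ito_eq (hISO : S_ISO) (hKWM : S_KWM) {k : ℕ} (ν : Measure (ℝ × ℝ))
    (hν : IsProbabilityMeasure ν) (h : (Fin k → ℝ) → ℝ≥0∞) (hh : Measurable h) (n : ℕ) :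
    ∀ (c : ℕ → ℝ) (w : Fin k → ℝ), ito ν h n c w =
      ∫⁻ ω, h (pth c w ω n) ∂(Measure.infinitePi fun _ : ℕ => ν) := by
  induction n with
  | zero =>
    intro c w
    simp [ito, pth]
  | succ n ih =>
    intro c w
    have hm : ∀ (c : ℕ → ℝ) (n : ℕ) (w : Fin k → ℝ),
        Measurable (fun ω : ℕ → ℝ × ℝ => h (pth c w ω n)) := by
      intro c n w
      have h1 : Measurable (fun ω : ℕ → ℝ × ℝ => ((w, ω) : (Fin k → ℝ) × (ℕ → ℝ × ℝ))) :=
        measurable_const.prodMk measurable_id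
      exact hh.comp ((hKWM.2.2.2.2 k c n).comp h1)
    have hm2 : Measurable (fun z : (ℝ × ℝ) × (ℕ → ℝ × ℝ) =>
        h (pth (fun j => c (j + 1)) (stp (c 0) w z.1) z.2 n)) := by
      have h1 : Measurable (fun z : (ℝ × ℝ) × (ℕ → ℝ × ℝ) =>
          ((stp (c 0) w z.1, z.2) : (Fin k → ℝ) × (ℕ → ℝ × ℝ))) :=
        ((meas_stp hKWM (c 0) w).comp measurable_fst).prodMk measurable_snd
      exact hh.comp ((hKWM.2.2.2.2 k (fun j => c (j + 1)) n).comp h1)
    conv_rhs => rw [← hISO ν hν]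
    rw [lintegral_map (hm c (n + 1) w) meas_cns]
    simp only [pth_cns]
    rw [lintegral_prod _ hm2.aemeasurable]
    show op ν (c 0) (ito ν h n (fun j => c (j + 1))) w = _
    unfold op
    refine lintegral_congr (fun u => ?_)
    exact ih _ _

lemma ito_const {k : ℕ} (ν : Measure (ℝ × ℝ)) (h : (Fin k → ℝ) → ℝ≥0∞) (a : ℝ) (n : ℕ) :
    ito ν h n (fun _ => a) = (op ν a)^[n] h := by
  induction n with
  | zero => rfl
  | succ n ih =>
    rw [Function.iterate_succ_apply', ← ih]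
    rfl

theorem main (hISO : S_ISO) (hKWM : S_KWM) : S_BR := by
  intro k ν a b h n w hν hh
  rw [← ito_eq hISO hKWM ν hν h hh (n + 1) (cc a b) w, ← ito_const]
  show _ = op ν (cc a b 0) (ito ν h n (fun j => cc a b (j + 1))) w
  have h1 : (fun j => cc a b (j + 1)) = fun _ => a := by
    funext j
    simp [cc]
  have h2 : cc a b 0 = b := by simp [cc]
  rw [h1, h2]

end Pool.Agent.Helper36.HQ.BR
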