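import Pool.Agent.Helper98.HQ.Spec

set_option autoImplicit false

open MeasureTheory Filter Topology
open scoped ENNReal NNReal

namespace Pool.Agent.Helper36.HQ.DEC

open Pool.Agent.Helper98.HQ

lemma op_mono {k : ℕ} (ν : Measure (ℝ × ℝ)) (c : ℝ) {h h' : (Fin k → ℝ) → ℝ≥0∞}
    (hh : ∀ w, h w ≤ h' w) (w : Fin k → ℝ) : op ν c h w ≤ op ν c h' w :=
  lintegral_mono (fun _ => hh _)

lemma op_iter_mono {k : ℕ} (ν : Measure (ℝ × ℝ)) (c : ℝ) {h h' : (Fin k → ℝ) → ℝ≥0∞}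
    (hh : ∀ w, h w ≤ h' w) (n : ℕ) : ∀ w : Fin k → ℝ, (op ν c)^[n] h w ≤ (op ν c)^[n] h' w := by
  induction n with
  | zero => exact hh
  | succ n ih =>
    intro w
    rw [Function.iterate_succ_apply', Function.iterate_succ_apply']
    exact op_mono ν c ih w

lemma op_le_const {k : ℕ} (ν : Measure (ℝ × ℝ)) [IsProbabilityMeasure ν] (c : ℝ)
    {h : (Fin k → ℝ) → ℝ≥0∞} {M : ℝ≥0∞} (hh : ∀ w, h w ≤ M) (w : Fin k → ℝ) :
    op ν c h w ≤ M := by
  calc op ν c h w ≤ ∫⁻ _, M ∂ν := lintegral_mono (fun _ => hh _)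
    _ = M := by simp

lemma op_iter_le_const {k : ℕ} (ν : Measure (ℝ × ℝ)) [IsProbabilityMeasure ν] (c : ℝ)
    {h : (Fin k → ℝ) → ℝ≥0∞} {M : ℝ≥0∞} (hh : ∀ w, h w ≤ M) (n : ℕ) :
    ∀ w : Fin k → ℝ, (op ν c)^[n] h w ≤ M := by
  induction n with
  | zero => exact hh
  | succ n ih =>
    intro w
    rw [Function.iterate_succ_apply']
    exact op_le_const ν c ih w

lemma dec_eq (hKWM : S_KWM) (k : ℕ) (ν : Measure (ℝ × ℝ)) (p a b : ℝ)
    (π : Measure (Fin k → ℝ)) (h : (Fin k → ℝ) → ℝ≥0∞) (hν : IsProbabilityMeasure ν)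
    (hS : St k ν p a b π) (hh : Measurable h) (N : ℕ) :
    ∫⁻ w, h w ∂π = ENNReal.ofReal (1 - p) ^ N * ∫⁻ w, (op ν a)^[N] h w ∂π +
      ENNReal.ofReal p * ∑ n ∈ Finset.range N,
        ENNReal.ofReal (1 - p) ^ n * ∫⁻ w, op ν b ((op ν a)^[n] h) w ∂π := by
  induction N with
  | zero => simp
  | succ N ih =>
    rw [ih, hS.inv _ (hKWM.2.2.1 k ν a h hν hh N), Finset.sum_range_succ,
      Function.iterate_succ', pow_succ]
    simp only [Function.comp]
    ring

theorem main (hKWM : S_KWM) : S_DEC := by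
  intro k ν p a b M π h N hν hp0 hp1 hM hS hh
  have hπ := hS.prob
  have e1 := dec_eq hKWM k ν p a b π h hν hS hh N
  have e2 := dec_eq hKWM k ν p a b π (fun w => min (h w) (ENNReal.ofReal M)) hν hS
    (hh.min measurable_const) N
  have hq1 : ENNReal.ofReal (1 - p) ≤ 1 := by
    rw [← ENNReal.ofReal_one]
    exact ENNReal.ofReal_le_ofReal (by linarith)
  have b1 : ∫⁻ w, (op ν a)^[N] (fun w => min (h w) (ENNReal.ofReal M)) w ∂π ≤
      ∫⁻ w, (op ν a)^[N] h w ∂π :=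
    lintegral_mono (fun w => op_iter_mono ν a (fun w => min_le_left _ _) N w)
  have b2 : ∑ n ∈ Finset.range N, ENNReal.ofReal (1 - p) ^ n *
      ∫⁻ w, op ν b ((op ν a)^[n] (fun w => min (h w) (ENNReal.ofReal M))) w ∂π ≤
      ENNReal.ofReal (M * N) := by
    calc _ ≤ ∑ n ∈ Finset.range N, ENNReal.ofReal M := by
          refine Finset.sum_le_sum (fun n _ => ?_)
          calc _ ≤ 1 * ∫⁻ _, ENNReal.ofReal M ∂π := by
                refine mul_le_mul' (pow_le_one' hq1 n) (lintegral_mono (fun w => ?_))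
                exact op_le_const ν b (op_iter_le_const ν a (fun w => min_le_right _ _) n) w
            _ = ENNReal.ofReal M := by simp
      _ = ENNReal.ofReal (M * N) := by
          rw [Finset.sum_const, Finset.card_range, nsmul_eq_mul, mul_comm M,
            ENNReal.ofReal_mul (by positivity), ENNReal.ofReal_natCast]
  have b3 : ENNReal.ofReal p * ENNReal.ofReal (M * N) = ENNReal.ofReal (M * N * p) := by
    rw [mul_comm, ← ENNReal.ofReal_mul (by positivity)]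
  rw [e2, e1, ← b3]
  calc _ ≤ ENNReal.ofReal (1 - p) ^ N * ∫⁻ w, (op ν a)^[N] h w ∂π +
        ENNReal.ofReal p * ENNReal.ofReal (M * N) +
        ENNReal.ofReal p * ∑ n ∈ Finset.range N,
          ENNReal.ofReal (1 - p) ^ n * ∫⁻ w, op ν b ((op ν a)^[n] h) w ∂π := by
        gcongr
    _ = _ := by ring

end Pool.Agent.Helper36.HQ.DEC
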