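import Pool.Agent.Helper98.HQ.Spec

set_option autoImplicit false

open MeasureTheory Filter Topology
open scoped ENNReal NNReal

namespace Pool.Agent.Helper36.HQ.GEN

open Pool.Agent.Helper98.HQ

lemma op_mono {k : ℕ} (ν : Measure (ℝ × ℝ)) (c : ℝ) {h h' : (Fin k → ℝ) → ℝ≥0∞}
    (hh : ∀ w, h w ≤ h' w) (w : Fin k → ℝ) : op ν c h w ≤ op ν c h' w :=
  lintegral_mono (fun _ => hh _)

lemma op_le_const {k : ℕ} (ν : Measure (ℝ × ℝ)) [IsProbabilityMeasure ν] (c : ℝ)
    {h : (Fin k → ℝ) → ℝ≥0∞} {M : ℝ≥0∞} (hh : ∀ w, h w ≤ M) (w : Fin k → ℝ) :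
    op ν c h w ≤ M := by
  calc op ν c h w ≤ ∫⁻ _, M ∂ν := lintegral_mono (fun _ => hh _)
    _ = M := by simp

theorem main : S_GEN := by
  intro k ν p a b C π f g hν hp0 hp1 hC hS hf hg hfin hdr
  have hπ := hS.prob
  -- the truncated inequality
  have hK : ∀ K : ℕ, ∫⁻ w, Set.indicator {w | f w ≤ K} g w ∂π ≤ ENNReal.ofReal C := by
    intro K
    set F : (Fin k → ℝ) → ℝ≥0∞ := fun w => min (f w) K with hF
    have hFm : Measurable F := hf.min measurable_const
    have hset : MeasurableSet {w | f w ≤ (K : ℝ≥0∞)} := hf measurableSet_Iic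
    have hpt : ∀ᵐ w ∂π, ENNReal.ofReal (1 - p) * op ν a F w + ENNReal.ofReal p * op ν b F w +
        Set.indicator {w | f w ≤ K} g w ≤ F w + ENNReal.ofReal C := by
      filter_upwards [hdr] with w hw
      by_cases hfw : f w ≤ K
      · have hmem : w ∈ {w | f w ≤ (K : ℝ≥0∞)} := hfw
        have h1 : Set.indicator {w | f w ≤ (K : ℝ≥0∞)} g w = g w :=
          Set.indicator_of_mem hmem g
        have h2 : F w = f w := min_eq_left hfw
        rw [h1, h2]
        refine le_trans ?_ hw
        have h3 : op ν a F w ≤ op ν a f w := op_mono ν a (fun w => min_le_left _ _) w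
        have h4 : op ν b F w ≤ op ν b f w := op_mono ν b (fun w => min_le_left _ _) w
        gcongr
      · have hmem : w ∉ {w | f w ≤ (K : ℝ≥0∞)} := hfw
        have h1 : Set.indicator {w | f w ≤ (K : ℝ≥0∞)} g w = 0 :=
          Set.indicator_of_notMem hmem g
        have h2 : F w = K := min_eq_right (le_of_not_ge hfw)
        rw [h1, h2, add_zero]
        have h3 : op ν a F w ≤ K := op_le_const ν a (fun w => min_le_right _ _) w
        have h4 : op ν b F w ≤ K := op_le_const ν b (fun w => min_le_right _ _) w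
        calc ENNReal.ofReal (1 - p) * op ν a F w + ENNReal.ofReal p * op ν b F w
            ≤ ENNReal.ofReal (1 - p) * K + ENNReal.ofReal p * K := by gcongr
          _ = K := by
              rw [← add_mul, ← ENNReal.ofReal_add (by linarith) hp0]
              simp
          _ ≤ K + ENNReal.ofReal C := le_self_add
    have hinv := hS.inv F hFm
    have hFfin : ∫⁻ w, F w ∂π ≠ ∞ := by
      refine ne_of_lt ?_
      calc ∫⁻ w, F w ∂π ≤ ∫⁻ _, (K : ℝ≥0∞) ∂π := lintegral_mono (fun w => min_le_right _ _)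
        _ = K := by simp
        _ < ∞ := ENNReal.natCast_lt_top K
    have h5 : ∫⁻ w, F w ∂π + ∫⁻ w, Set.indicator {w | f w ≤ K} g w ∂π ≤
        ∫⁻ w, F w ∂π + ENNReal.ofReal C := by
      calc ∫⁻ w, F w ∂π + ∫⁻ w, Set.indicator {w | f w ≤ K} g w ∂π
          = (∫⁻ w, ENNReal.ofReal (1 - p) * op ν a F w ∂π +
              ∫⁻ w, ENNReal.ofReal p * op ν b F w ∂π) +
              ∫⁻ w, Set.indicator {w | f w ≤ K} g w ∂π := by
            rw [lintegral_const_mul' _ _ ENNReal.ofReal_ne_top,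
              lintegral_const_mul' _ _ ENNReal.ofReal_ne_top, ← hinv]
        _ ≤ ∫⁻ w, (ENNReal.ofReal (1 - p) * op ν a F w + ENNReal.ofReal p * op ν b F w) ∂π +
              ∫⁻ w, Set.indicator {w | f w ≤ K} g w ∂π := by
            gcongr
            exact le_lintegral_add _ _
        _ ≤ ∫⁻ w, (ENNReal.ofReal (1 - p) * op ν a F w + ENNReal.ofReal p * op ν b F w +
              Set.indicator {w | f w ≤ K} g w) ∂π := le_lintegral_add _ _
        _ ≤ ∫⁻ w, (F w + ENNReal.ofReal C) ∂π := lintegral_mono_ae hpt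
        _ = ∫⁻ w, F w ∂π + ENNReal.ofReal C := by
            rw [lintegral_add_right _ measurable_const]
            simp
    exact (ENNReal.add_le_add_iff_left hFfin).1 h5
  -- monotone convergence
  have hsup : ∀ w, g w = ⨆ K : ℕ, Set.indicator {w | f w ≤ (K : ℝ≥0∞)} g w := by
    intro w
    apply le_antisymm
    · obtain ⟨K, hK⟩ := ENNReal.exists_nat_gt (hfin w)
      refine le_trans ?_ (le_iSup _ K)
      have : w ∈ {w | f w ≤ (K : ℝ≥0∞)} := hK.le
      rw [Set.indicator_of_mem this]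
    · exact iSup_le (fun K => Set.indicator_le_self _ _ _)
  calc ∫⁻ w, g w ∂π = ∫⁻ w, ⨆ K : ℕ, Set.indicator {w | f w ≤ (K : ℝ≥0∞)} g w ∂π :=
        lintegral_congr hsup
    _ = ⨆ K : ℕ, ∫⁻ w, Set.indicator {w | f w ≤ (K : ℝ≥0∞)} g w ∂π := by
        refine lintegral_iSup (fun K => hg.indicator (hf measurableSet_Iic)) ?_
        intro K L hKL w
        refine Set.indicator_le_indicator_of_subset ?_ (fun _ => zero_le) w
        intro v hv
        have hv' : f v ≤ (K : ℝ≥0∞) := hv
        exact le_trans hv' (by exact_mod_cast hKL)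
    _ ≤ ENNReal.ofReal C := iSup_le hK

end Pool.Agent.Helper36.HQ.GEN
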