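import Pool.Agent.Helper98.HQ.Spec

set_option autoImplicit false

open MeasureTheory Filter Topology
open scoped ENNReal NNReal

namespace Pool.Agent.Helper36.HQ.ISO

open Pool.Agent.Helper98.HQ

lemma meas_cns : Measurable (fun z : (ℝ × ℝ) × (ℕ → ℝ × ℝ) => cns z.1 z.2) := by
  refine measurable_pi_lambda _ (fun n => ?_)
  cases n with
  | zero => exact measurable_fst
  | succ n => exact (measurable_pi_apply n).comp measurable_snd

theorem main : S_ISO := by
  intro ν hν
  refine Measure.eq_infinitePi _ (fun s t ht => ?_)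
  have hms : MeasurableSet (Set.pi (s : Set ℕ) t) :=
    MeasurableSet.pi s.countable_toSet (fun i _ => ht i)
  rw [Measure.map_apply meas_cns hms]
  classical
  have hpre : (fun z : (ℝ × ℝ) × (ℕ → ℝ × ℝ) => cns z.1 z.2) ⁻¹' (Set.pi (s : Set ℕ) t) =
      (if 0 ∈ s then t 0 else Set.univ) ×ˢ
        Set.pi ((s.preimage Nat.succ (Nat.succ_injective.injOn) : Finset ℕ) : Set ℕ)
          (fun n => t (n + 1)) := by
    ext z
    simp only [Set.mem_preimage, Set.mem_pi, Set.mem_prod, Finset.mem_coe, Finset.mem_preimage]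
    constructor
    · intro h
      refine ⟨?_, fun n hn => h (n + 1) hn⟩
      split_ifs with h0
      · exact h 0 h0
      · trivial
    · rintro ⟨h1, h2⟩ i hi
      cases i with
      | zero => rw [if_pos hi] at h1; exact h1
      | succ n => exact h2 n hi
  rw [hpre, Measure.prod_prod, Measure.infinitePi_pi]
  · have h1 : ∏ i ∈ s.preimage Nat.succ (Nat.succ_injective.injOn), ν (t (i + 1)) =
        ∏ i ∈ s.erase 0, ν (t i) := by
      refine Finset.prod_bij (fun i _ => i + 1) ?_ ?_ ?_ ?_
      · intro i hi
        rw [Finset.mem_preimage] at hi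
        exact Finset.mem_erase.2 ⟨Nat.succ_ne_zero i, hi⟩
      · intro i _ j _ hij
        exact Nat.succ_injective hij
      · intro j hj
        obtain ⟨h0, hj⟩ := Finset.mem_erase.1 hj
        obtain ⟨i, rfl⟩ := Nat.exists_eq_succ_of_ne_zero h0
        exact ⟨i, Finset.mem_preimage.2 hj, rfl⟩
      · intro i _; rfl
    rw [h1]
    split_ifs with h0
    · rw [Finset.mul_prod_erase s (fun i => ν (t i)) h0]
    · rw [measure_univ, one_mul, Finset.erase_eq_of_notMem h0]
  · intro i _
    exact ht (i + 1)

end Pool.Agent.Helper36.HQ.ISO
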