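import Pool.Agent.Helper98.HQ.Spec

set_option autoImplicit false

open MeasureTheory Filter Topology
open scoped ENNReal NNReal

namespace Pool.Agent.Helper36.HQ.MEANB

open Pool.Agent.Helper98.HQ

/-- Upper bound for the sum of squares after one step. -/
noncomputable def ZZ {m : ℕ} (c : ℝ) (w : Fin (m + 1) → ℝ) (u : ℝ × ℝ) : ℝ :=
  ∑ i, w i ^ 2 + 2 * w 0 * c * u.2 + c ^ 2 * u.2 ^ 2 - 2 * (∑ i, w i) * u.1 + (m + 1) * u.1 ^ 2

lemma nsq_nonneg {k : ℕ} (c : ℝ) (w : Fin k → ℝ) (u : ℝ × ℝ) : 0 ≤ nsq c w u :=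
  Finset.sum_nonneg (fun _ _ => sq_nonneg _)

lemma step_le (hSQ : S_SQ) {m : ℕ} (c : ℝ) (hc : 0 ≤ c) (w : Fin (m + 1) → ℝ) (u : ℝ × ℝ)
    (hu : 0 ≤ u.1 ∧ 0 ≤ u.2) : ∑ i, (stp c w u i) ^ 2 ≤ ZZ c w u := by
  have h := hSQ m c w u
  have h1 := nsq_nonneg c w u
  rw [max_eq_left hu.1, max_eq_left hu.2] at h
  unfold ZZ
  have h2 : 0 ≤ 2 * u.1 * (c * u.2) := by
    have := mul_nonneg hu.1 (mul_nonneg hc hu.2)
    linarith
  nlinarith [h, h1, h2]

lemma int_fst {m : ℕ} {ν : Measure (ℝ × ℝ)} (hI : Inp (m + 1) ν) :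
    Integrable (fun u : ℝ × ℝ => u.1) ν := by
  have := hI.prob
  have h : MemLp (fun u : ℝ × ℝ => u.1) 2 ν :=
    (memLp_two_iff_integrable_sq measurable_fst.aestronglyMeasurable).2 hI.T2
  exact h.integrable (by norm_num)

lemma int_snd {m : ℕ} {ν : Measure (ℝ × ℝ)} (hI : Inp (m + 1) ν) :
    Integrable (fun u : ℝ × ℝ => u.2) ν := by
  have := hI.prob
  have h : MemLp (fun u : ℝ × ℝ => u.2) 2 ν :=
    (memLp_two_iff_integrable_sq measurable_snd.aestronglyMeasurable).2 hI.S2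
  exact h.integrable (by norm_num)

lemma int_ZZ {m : ℕ} {ν : Measure (ℝ × ℝ)} (hI : Inp (m + 1) ν) (c : ℝ)
    (w : Fin (m + 1) → ℝ) : Integrable (ZZ c w) ν ∧ ∫ u, ZZ c w u ∂ν =
      ∑ i, w i ^ 2 + 2 * w 0 * c * (∫ u, u.2 ∂ν) + c ^ 2 * (∫ u, u.2 ^ 2 ∂ν) -
        2 * (∑ i, w i) * (∫ u, u.1 ∂ν) + (m + 1) * (∫ u, u.1 ^ 2 ∂ν) := by
  have := hI.prob
  have i1 : Integrable (fun _ : ℝ × ℝ => ∑ i, w i ^ 2) ν := integrable_const _
  have i2 : Integrable (fun u : ℝ × ℝ => 2 * w 0 * c * u.2) ν := (int_snd hI).const_mul _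
  have i3 : Integrable (fun u : ℝ × ℝ => c ^ 2 * u.2 ^ 2) ν := hI.S2.const_mul _
  have i4 : Integrable (fun u : ℝ × ℝ => 2 * (∑ i, w i) * u.1) ν := (int_fst hI).const_mul _
  have i5 : Integrable (fun u : ℝ × ℝ => ((m : ℝ) + 1) * u.1 ^ 2) ν := hI.T2.const_mul _
  have i12 := i1.add i2
  have i123 := i12.add i3
  have i1234 := i123.sub i4
  have i12345 := i1234.add i5
  refine ⟨i12345, ?_⟩
  have e5 : ∫ u, ZZ c w u ∂ν = ∫ u, (∑ i, w i ^ 2 + 2 * w 0 * c * u.2 + c ^ 2 * u.2 ^ 2 -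
      2 * (∑ i, w i) * u.1) ∂ν + ∫ u, ((m : ℝ) + 1) * u.1 ^ 2 ∂ν := integral_add i1234 i5
  have e4 : ∫ u, (∑ i, w i ^ 2 + 2 * w 0 * c * u.2 + c ^ 2 * u.2 ^ 2 -
      2 * (∑ i, w i) * u.1) ∂ν = ∫ u, (∑ i, w i ^ 2 + 2 * w 0 * c * u.2 + c ^ 2 * u.2 ^ 2) ∂ν -
      ∫ u, 2 * (∑ i, w i) * u.1 ∂ν := integral_sub i123 i4
  have e3 : ∫ u, (∑ i, w i ^ 2 + 2 * w 0 * c * u.2 + c ^ 2 * u.2 ^ 2) ∂ν =
      ∫ u, (∑ i, w i ^ 2 + 2 * w 0 * c * u.2) ∂ν + ∫ u, c ^ 2 * u.2 ^ 2 ∂ν :=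
    integral_add i12 i3
  have e2 : ∫ u, (∑ i, w i ^ 2 + 2 * w 0 * c * u.2) ∂ν =
      ∫ _, (∑ i, w i ^ 2) ∂ν + ∫ u, 2 * w 0 * c * u.2 ∂ν := integral_add i1 i2
  rw [e5, e4, e3, e2, integral_const_mul, integral_const_mul, integral_const_mul,
    integral_const_mul]
  simp

theorem main (hGEN : S_GEN) (hSQ : S_SQ) : S_MEANB := by
  intro m ν p a b π hI hp0 hp1 ha hb hab hS
  have hν := hI.prob
  have hπ := hS.prob
  set A := ∫ u, u.1 ∂ν with hA
  set B := ∫ u, u.2 ∂ν with hB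
  set E2 := ∫ u, u.2 ^ 2 ∂ν with hE2
  set T2 := ∫ u, u.1 ^ 2 ∂ν with hT2
  have hE2n : 0 ≤ E2 := integral_nonneg (fun _ => sq_nonneg _)
  have hT2n : 0 ≤ T2 := integral_nonneg (fun _ => sq_nonneg _)
  have hm1 : (0 : ℝ) < (m : ℝ) + 1 := by positivity
  have hstab : B < ((m : ℝ) + 1) * A := by
    have := hI.stab
    push_cast at this
    exact this
  set κ : ℝ := 2 * (A - B / (m + 1)) with hκ
  have hκ0 : 0 < κ := by
    have : B / (m + 1) < A := by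
      rw [div_lt_iff₀ hm1]
      linarith
    simp only [hκ]
    linarith
  set C : ℝ := ((1 - p) * a ^ 2 + p * b ^ 2) * E2 + (m + 1) * T2 with hC
  have hC0 : 0 ≤ C := by
    have h1 : 0 ≤ 1 - p := by linarith
    positivity
  have hsumm : Measurable (fun w : Fin (m + 1) → ℝ => ∑ i, w i) :=
    Finset.measurable_sum _ (fun i _ => measurable_pi_apply i)
  have hsqm : Measurable (fun w : Fin (m + 1) → ℝ => ∑ i, w i ^ 2) :=
    Finset.measurable_sum _ (fun i _ => (measurable_pi_apply i).pow_const 2)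
  have hbd : ∀ᵐ w ∂π, ENNReal.ofReal (1 - p) * op ν a (fun w => ENNReal.ofReal (∑ i, w i ^ 2)) w +
      ENNReal.ofReal p * op ν b (fun w => ENNReal.ofReal (∑ i, w i ^ 2)) w +
      ENNReal.ofReal (κ * ∑ i, w i) ≤ ENNReal.ofReal (∑ i, w i ^ 2) + ENNReal.ofReal C := by
    filter_upwards [hS.adm] with w hw
    have hop : ∀ c : ℝ, 0 ≤ c → op ν c (fun w => ENNReal.ofReal (∑ i, w i ^ 2)) w ≤
        ENNReal.ofReal (∫ u, ZZ c w u ∂ν) := by
      intro c hc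
      have hZ0 : 0 ≤ᵐ[ν] ZZ c w := by
        filter_upwards [hI.nn] with u hu
        exact le_trans (Finset.sum_nonneg (fun _ _ => sq_nonneg _)) (step_le hSQ c hc w u hu)
      rw [ofReal_integral_eq_lintegral_ofReal (int_ZZ hI c w).1 hZ0]
      unfold op
      refine lintegral_mono_ae ?_
      filter_upwards [hI.nn] with u hu
      exact ENNReal.ofReal_le_ofReal (step_le hSQ c hc w u hu)
    have hZn : ∀ c : ℝ, 0 ≤ c → 0 ≤ ∫ u, ZZ c w u ∂ν := by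
      intro c hc
      refine integral_nonneg_of_ae ?_
      filter_upwards [hI.nn] with u hu
      exact le_trans (Finset.sum_nonneg (fun _ _ => sq_nonneg _)) (step_le hSQ c hc w u hu)
    have hsum0 : 0 ≤ ∑ i, w i := Finset.sum_nonneg (fun i _ => hw.2 i)
    have hsq0 : 0 ≤ ∑ i, w i ^ 2 := Finset.sum_nonneg (fun i _ => sq_nonneg _)
    have hw0 : ((m : ℝ) + 1) * w 0 ≤ ∑ i, w i := by
      have : ∑ _i : Fin (m + 1), w 0 ≤ ∑ i, w i :=
        Finset.sum_le_sum (fun i _ => hw.1 (Fin.zero_le i))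
      simpa using this
    calc _ ≤ ENNReal.ofReal (1 - p) * ENNReal.ofReal (∫ u, ZZ a w u ∂ν) +
          ENNReal.ofReal p * ENNReal.ofReal (∫ u, ZZ b w u ∂ν) +
          ENNReal.ofReal (κ * ∑ i, w i) := by
          gcongr
          · exact hop a ha
          · exact hop b hb
      _ = ENNReal.ofReal ((1 - p) * (∫ u, ZZ a w u ∂ν) + p * (∫ u, ZZ b w u ∂ν) +
          κ * ∑ i, w i) := by
          have h1 : 0 ≤ 1 - p := by linarith
          rw [← ENNReal.ofReal_mul h1, ← ENNReal.ofReal_mul hp0,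
            ← ENNReal.ofReal_add (mul_nonneg h1 (hZn a ha)) (mul_nonneg hp0 (hZn b hb)),
            ← ENNReal.ofReal_add (add_nonneg (mul_nonneg h1 (hZn a ha))
              (mul_nonneg hp0 (hZn b hb))) (mul_nonneg hκ0.le hsum0)]
      _ ≤ ENNReal.ofReal (∑ i, w i ^ 2 + C) := by
          refine ENNReal.ofReal_le_ofReal ?_
          rw [(int_ZZ hI a w).2, (int_ZZ hI b w).2]
          have hB0 : 0 ≤ B := hI.Spos.le
          have h3 : 2 * w 0 * B ≤ 2 * (B / (m + 1)) * ∑ i, w i := by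
            have h4 : 2 * (B / (m + 1)) * ∑ i, w i = (2 * B / (m + 1)) * ∑ i, w i := by ring
            rw [h4, div_mul_eq_mul_div, le_div_iff₀ hm1]
            nlinarith
          have h5 : (1 - p) * (∑ i, w i ^ 2 + 2 * w 0 * a * B + a ^ 2 * E2 -
              2 * (∑ i, w i) * A + (m + 1) * T2) + p * (∑ i, w i ^ 2 + 2 * w 0 * b * B +
              b ^ 2 * E2 - 2 * (∑ i, w i) * A + (m + 1) * T2) =
              ∑ i, w i ^ 2 + 2 * w 0 * B * ((1 - p) * a + p * b) +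
              ((1 - p) * a ^ 2 + p * b ^ 2) * E2 - 2 * (∑ i, w i) * A + (m + 1) * T2 := by ring
          rw [h5, hab, hκ, hC]
          nlinarith
      _ = _ := ENNReal.ofReal_add hsq0 hC0
  have hg := hGEN (m + 1) ν p a b C π (fun w => ENNReal.ofReal (∑ i, w i ^ 2))
    (fun w => ENNReal.ofReal (κ * ∑ i, w i)) hν hp0 hp1 hC0 hS
    hsqm.ennreal_ofReal ((hsumm.const_mul κ).ennreal_ofReal) (fun _ => ENNReal.ofReal_ne_top) hbd
  have hnn : 0 ≤ᵐ[π] fun w => κ * ∑ i, w i := by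
    filter_upwards [hS.adm] with w hw
    exact mul_nonneg hκ0.le (Finset.sum_nonneg (fun i _ => hw.2 i))
  have hint : Integrable (fun w : Fin (m + 1) → ℝ => κ * ∑ i, w i) π := by
    refine ⟨(hsumm.const_mul κ).aestronglyMeasurable, ?_⟩
    rw [hasFiniteIntegral_iff_ofReal hnn]
    exact lt_of_le_of_lt hg ENNReal.ofReal_lt_top
  have hints : Integrable (fun w : Fin (m + 1) → ℝ => ∑ i, w i) π := by
    have := hint.const_mul κ⁻¹
    refine this.congr (ae_of_all _ (fun w => ?_))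
    show κ⁻¹ * (κ * ∑ i, w i) = ∑ i, w i
    rw [← mul_assoc, inv_mul_cancel₀ hκ0.ne', one_mul]
  have hi : ∀ i, Integrable (fun w : Fin (m + 1) → ℝ => w i) π := by
    intro i
    refine hints.mono' (measurable_pi_apply i).aestronglyMeasurable ?_
    filter_upwards [hS.adm] with w hw
    rw [Real.norm_eq_abs, abs_of_nonneg (hw.2 i)]
    exact Finset.single_le_sum (f := fun i => w i) (fun i _ => hw.2 i) (Finset.mem_univ i)
  refine ⟨hi, ?_⟩
  have h6 : ENNReal.ofReal (∫ w, κ * ∑ i, w i ∂π) ≤ ENNReal.ofReal C := by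
    rw [ofReal_integral_eq_lintegral_ofReal hint hnn]
    exact hg
  have h7 := (ENNReal.ofReal_le_ofReal_iff hC0).1 h6
  rw [integral_const_mul, integral_finsetSum _ (fun i _ => hi i)] at h7
  exact h7

end Pool.Agent.Helper36.HQ.MEANB
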