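import Pool.Agent.Helper98.HQ.Spec

set_option autoImplicit false

open MeasureTheory Filter Topology
open scoped ENNReal NNReal

namespace Pool.Agent.Helper36.HQ.SQ

open Pool.Agent.Helper98.HQ

lemma sq_split (v : ℝ) : (max v 0) ^ 2 + (min v 0) ^ 2 = v ^ 2 := by
  rcases le_total v 0 with h | h
  · rw [max_eq_right h, min_eq_left h]; ring
  · rw [max_eq_left h, min_eq_right h]; ring

theorem main : S_SQ := by
  intro m c w u
  have h1 : ∑ i, (stp c w u i) ^ 2 =
      ∑ i : Fin (m + 1), (max (w i + (if (i : ℕ) = 0 then c * max u.2 0 else 0) - max u.1 0) 0) ^ 2 := by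
    unfold stp kw srt
    exact Equiv.sum_comp (Tuple.sort (fun i : Fin (m + 1) =>
      max (w i + (if (i : ℕ) = 0 then c * max u.2 0 else 0) - max u.1 0) 0))
      (fun i : Fin (m + 1) =>
        (max (w i + (if (i : ℕ) = 0 then c * max u.2 0 else 0) - max u.1 0) 0) ^ 2)
  rw [h1]
  unfold nsq
  rw [← Finset.sum_add_distrib]
  simp_rw [sq_split]
  have h2 : ∀ i : Fin (m + 1), (w i + (if (i : ℕ) = 0 then c * max u.2 0 else 0) - max u.1 0) ^ 2 =
      (w i) ^ 2 + (if (i : ℕ) = 0 then c * max u.2 0 else 0) * (2 * w i + c * max u.2 0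
        - 2 * max u.1 0) - 2 * max u.1 0 * w i + (max u.1 0) ^ 2 := by
    intro i
    split_ifs <;> ring
  simp_rw [h2]
  rw [Finset.sum_add_distrib, Finset.sum_sub_distrib, Finset.sum_add_distrib, ← Finset.mul_sum]
  have h3 : ∑ i : Fin (m + 1), (if (i : ℕ) = 0 then c * max u.2 0 else 0) *
      (2 * w i + c * max u.2 0 - 2 * max u.1 0) =
      c * max u.2 0 * (2 * w 0 + c * max u.2 0 - 2 * max u.1 0) := by
    rw [Fin.sum_univ_succ]
    simp
  rw [h3]
  simp
  ring

end Pool.Agent.Helper36.HQ.SQ
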